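import Mathlib

/-!
# The topologization `τK` of Kuratowski-Painleve convergence over the box metric (MP_3b4475_gt)

`𝒳` is the set of isomorphism classes of mm-spaces, `□` the box distance on `𝒳`, and
`F(𝒳, □)` the set of `□`-closed subsets of `𝒳`.  We show that the finest topology on `F(𝒳, □)`
for which every Kuratowski-Painleve convergent net converges to its limit is **not Hausdorff**
(Q1), hence **not metrizable** (Q2).

Idea.  For `ε > 0` and `m ≥ 1` let `CC ε m` be the set of all classes of spaces whose support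
has diameter `≤ ε` and in which closed sets of diameter `< ε` have mass `≤ 1/m`; let `DD` be the
class of the one-point space.  These sets are `□`-closed.  For fixed `ε > 0` the sets `CC ε m`
converge to `∅` as `m → ∞` (no space is a cluster point), and `CC (1/(n+1)) (k n + 1)` converges
to `DD` as `n → ∞`, for *every* choice of `k n`.  So a `τK`-open set containing `∅` contains
some `CC (1/(n+1)) (k n + 1)` for every `n`, and then each `τK`-open set containing `DD` contains
almost all of these.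
-/

open MeasureTheory Filter Set
open scoped ENNReal Topology

noncomputable section

namespace Pool.Agent.Results.MP_3b4475_gt.TauKNotHausdorff

/-- The half open unit interval `I = [0,1)`. -/
abbrev I : Type := Set.Ico (0 : ℝ) 1

/-- Lebesgue measure on `I = [0,1)`. -/
def leb : Measure I := Measure.comap Subtype.val (volume : Measure ℝ)

/-- An mm-space: a complete separable metric space with a Borel probability measure. -/
structure MMSpace where
  carrier : Type
  [metric : MetricSpace carrier]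
  [complete : CompleteSpace carrier]
  [separable : TopologicalSpace.SeparableSpace carrier]
  [measurable : MeasurableSpace carrier]
  [borel : BorelSpace carrier]
  μ : Measure carrier
  [prob : IsProbabilityMeasure μ]

attribute [instance] MMSpace.metric MMSpace.complete MMSpace.separable MMSpace.measurable
  MMSpace.borel MMSpace.prob

/-- `μ_X` seen as a measure on its own support. -/
def MMSpace.μsupp (X : MMSpace) : Measure X.μ.support := Measure.comap Subtype.val X.μ

/-- Identification of mm-spaces: an isometry of the supports which pushes `μ_X` to `μ_Y`. -/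
def MMSpace.Iso (X Y : MMSpace) : Prop :=
  ∃ f : X.μ.support ≃ᵢ Y.μ.support, Measure.map f X.μsupp = Y.μsupp

instance (X : MMSpace) : SecondCountableTopology X.carrier :=
  UniformSpace.secondCountable_of_separable X.carrier

theorem MMSpace.Iso.equivalence : Equivalence MMSpace.Iso where
  refl X := ⟨IsometryEquiv.refl _, by
    have : ((IsometryEquiv.refl X.μ.support : X.μ.support ≃ᵢ X.μ.support) : X.μ.support → X.μ.support) = id := rfl
    rw [this, Measure.map_id]⟩
  symm := by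
    rintro X Y ⟨f, hf⟩
    refine ⟨f.symm, ?_⟩
    rw [← hf, Measure.map_map f.symm.continuous.measurable f.continuous.measurable]
    have : (f.symm ∘ f : X.μ.support → X.μ.support) = id := by
      ext x; simp
    rw [this, Measure.map_id]
  trans := by
    rintro X Y Z ⟨f, hf⟩ ⟨g, hg⟩
    refine ⟨f.trans g, ?_⟩
    rw [← hg, ← hf, Measure.map_map g.continuous.measurable f.continuous.measurable]
    rfl

instance mmSetoid : Setoid MMSpace := ⟨MMSpace.Iso, MMSpace.Iso.equivalence⟩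

/-- `𝒳`, the set of isomorphism classes of mm-spaces. -/
def XX : Type 1 := Quotient mmSetoid

/-- `φ` is a parameter of `X`. -/
def IsParameter (X : MMSpace) (φ : I → X.carrier) : Prop :=
  Measurable φ ∧ Measure.map φ leb = X.μ

/-- The numbers admitted in the infimum defining the box distance. -/
def BoxLE (X Y : MMSpace) (ε : ℝ) : Prop :=
  0 ≤ ε ∧ ∃ (φ : I → X.carrier) (ψ : I → Y.carrier) (I₀ : Set I),
    IsParameter X φ ∧ IsParameter Y ψ ∧ MeasurableSet I₀ ∧
    ENNReal.ofReal (1 - ε) ≤ leb I₀ ∧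
    ∀ s ∈ I₀, ∀ t ∈ I₀, |dist (φ s) (φ t) - dist (ψ s) (ψ t)| ≤ ε

/-- The box distance of two mm-spaces. -/
def boxMM (X Y : MMSpace) : ℝ := sInf {ε : ℝ | BoxLE X Y ε}

lemma emb : MeasurableEmbedding (Subtype.val : I → ℝ) :=
  MeasurableEmbedding.subtype_coe measurableSet_Ico

lemma leb_apply (A : Set I) : leb A = volume (Subtype.val '' A) := emb.comap_apply _ _

lemma leb_univ : leb univ = 1 := by
  rw [leb_apply, image_univ, Subtype.range_coe, Real.volume_Ico]
  norm_num

instance : IsProbabilityMeasure leb := ⟨leb_univ⟩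

lemma MMSpace.nonempty (X : MMSpace) : Nonempty X.carrier := by
  by_contra h
  rw [not_nonempty_iff] at h
  have : X.μ univ = 0 := by
    rw [univ_eq_empty_iff.2 h]; simp
  rw [measure_univ] at this
  exact one_ne_zero this

/-- Every mm-space has a parameter. -/
lemma exists_parameter (X : MMSpace) : ∃ φ, IsParameter X φ := by
  have := X.nonempty
  obtain ⟨f, hf, hfm⟩ := MeasureTheory.Measure.exists_measurable_map_eq X.μ
  let j : I → unitInterval := fun s => ⟨s.1, s.2.1, s.2.2.le⟩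
  have hj : Measurable j := Measurable.subtype_mk measurable_subtype_coe
  have hjm : Measure.map j leb = volume := by
    ext A hA
    rw [Measure.map_apply hj hA, leb_apply, unitInterval.volume_def,
      (MeasurableEmbedding.subtype_coe measurableSet_Icc).comap_apply]
    have h1 : Subtype.val '' (j ⁻¹' A) = (Subtype.val '' A) \ {1} := by
      ext x
      constructor
      · rintro ⟨s, hs, rfl⟩
        exact ⟨⟨j s, hs, rfl⟩, fun h => by
          have := s.2.2
          simp only [mem_singleton_iff] at h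
          rw [h] at this
          exact lt_irrefl _ this⟩
      · rintro ⟨⟨s, hs, rfl⟩, h⟩
        exact ⟨⟨s.1, s.2.1, lt_of_le_of_ne s.2.2 h⟩, hs, rfl⟩
    rw [h1]
    exact measure_sdiff_null (by simp)
  refine ⟨f ∘ j, hf.comp hj, ?_⟩
  rw [← Measure.map_map hf hj, hjm, hfm]

lemma supp_compl (X : MMSpace) : X.μ X.μ.supportᶜ = 0 := Measure.measure_compl_support

lemma map_μsupp (X : MMSpace) : Measure.map Subtype.val X.μsupp = X.μ := by
  have h : MeasurableSet X.μ.support := Measure.isClosed_support.measurableSet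
  rw [MMSpace.μsupp, (MeasurableEmbedding.subtype_coe h).map_comap]
  rw [Subtype.range_coe]
  exact Measure.restrict_eq_self_of_ae_mem Measure.support_mem_ae

lemma transport {X X' : MMSpace} (h : X.Iso X') {φ : I → X.carrier} (hφ : IsParameter X φ) :
    ∃ (φ' : I → X'.carrier) (G : Set I), IsParameter X' φ' ∧ MeasurableSet G ∧ leb Gᶜ = 0 ∧
      ∀ s ∈ G, ∀ t ∈ G, dist (φ' s) (φ' t) = dist (φ s) (φ t) := by
  obtain ⟨f, hf⟩ := h
  have := X'.nonempty
  have hs : MeasurableSet X.μ.support := Measure.isClosed_support.measurableSet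
  obtain ⟨F, hF, hFe⟩ := (MeasurableEmbedding.subtype_coe hs).exists_measurable_extend
    (g := fun x => ((f x : X'.μ.support) : X'.carrier))
    (measurable_subtype_coe.comp f.continuous.measurable) (fun _ => this)
  refine ⟨F ∘ φ, φ ⁻¹' X.μ.support, ⟨hF.comp hφ.1, ?_⟩, hφ.1 hs, ?_, ?_⟩
  · rw [← Measure.map_map hF hφ.1, hφ.2]
    conv_lhs => rw [← map_μsupp X]
    rw [Measure.map_map hF measurable_subtype_coe, hFe]
    have : (fun x => ((f x : X'.μ.support) : X'.carrier)) = Subtype.val ∘ f := rfl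
    rw [this, ← Measure.map_map measurable_subtype_coe f.continuous.measurable, hf, map_μsupp]
  · rw [← preimage_compl, ← Measure.map_apply hφ.1 hs.compl, hφ.2]
    exact supp_compl X
  · intro s hs t ht
    have e1 : F (φ s) = (f ⟨φ s, hs⟩ : X'.μ.support) := congrFun hFe ⟨φ s, hs⟩
    have e2 : F (φ t) = (f ⟨φ t, ht⟩ : X'.μ.support) := congrFun hFe ⟨φ t, ht⟩
    simp only [Function.comp_apply]
    rw [e1, e2, ← Subtype.dist_eq, f.dist_eq]
    rfl

lemma BoxLE.symm {X Y : MMSpace} {ε : ℝ} (h : BoxLE X Y ε) : BoxLE Y X ε := by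
  obtain ⟨h0, φ, ψ, I₀, h1, h2, h3, h4, h5⟩ := h
  exact ⟨h0, ψ, φ, I₀, h2, h1, h3, h4, fun s hs t ht => by rw [abs_sub_comm]; exact h5 s hs t ht⟩

lemma BoxLE.left {X X' Y : MMSpace} (h : X.Iso X') {ε : ℝ} (hb : BoxLE X Y ε) :
    BoxLE X' Y ε := by
  obtain ⟨h0, φ, ψ, I₀, h1, h2, h3, h4, h5⟩ := hb
  obtain ⟨φ', G, g1, g2, g3, g4⟩ := transport h h1
  refine ⟨h0, φ', ψ, I₀ ∩ G, g1, h2, h3.inter g2, ?_, ?_⟩
  · refine h4.trans ?_
    rw [← measure_inter_add_sdiff I₀ g2]
    have : leb (I₀ \ G) = 0 := measure_mono_null (fun x hx => hx.2) g3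
    rw [this, add_zero]
  · intro s hs t ht
    rw [g4 s hs.2 t ht.2]
    exact h5 s hs.1 t ht.1

lemma BoxLE.congr {X X' Y Y' : MMSpace} (h : X.Iso X') (h' : Y.Iso Y') {ε : ℝ}
    (hb : BoxLE X Y ε) : BoxLE X' Y' ε := ((hb.left h).symm.left h').symm

lemma boxMM_congr {X Y X' Y' : MMSpace} (h : X ≈ X') (h' : Y ≈ Y') :
    boxMM X Y = boxMM X' Y' := by
  unfold boxMM
  congr 1
  ext ε
  exact ⟨fun hb => hb.congr h h', fun hb => hb.congr (mmSetoid.symm h) (mmSetoid.symm h')⟩

/-- The box distance `□` on `𝒳`. -/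
def box (x y : XX) : ℝ := Quotient.liftOn₂ x y boxMM fun _ _ _ _ h h' => boxMM_congr h h'

lemma BoxLE.one (X Y : MMSpace) : BoxLE X Y 1 := by
  obtain ⟨φ, hφ⟩ := exists_parameter X
  obtain ⟨ψ, hψ⟩ := exists_parameter Y
  exact ⟨zero_le_one, φ, ψ, ∅, hφ, hψ, MeasurableSet.empty, by simp, by simp⟩

lemma boxMM_lt {X Y : MMSpace} {δ : ℝ} (h : boxMM X Y < δ) : ∃ ε < δ, BoxLE X Y ε := by
  obtain ⟨ε, h1, h2⟩ := exists_lt_of_csInf_lt ⟨1, BoxLE.one X Y⟩ h
  exact ⟨ε, h2, h1⟩

lemma boxMM_le {X Y : MMSpace} {ε : ℝ} (h : BoxLE X Y ε) : boxMM X Y ≤ ε :=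
  csInf_le ⟨0, fun _ hx => hx.1⟩ h


/-- A set `A` of classes is `□`-closed: it contains every class each `□`-ball about which meets
`A`.  (`□` is a metric on `𝒳`, so this is closedness for the topology of `□`.) -/
def IsBoxClosed (A : Set XX) : Prop :=
  ∀ x : XX, (∀ ε > 0, ∃ y ∈ A, box x y < ε) → x ∈ A

/-- The hyperspace `F(𝒳, □)` of all `□`-closed subsets of `𝒳` (the empty set included). -/
def Hyp : Type 1 := {A : Set XX // IsBoxClosed A}

/-- The lower Kuratowski limit: the classes each `□`-ball about which meets `A i` for all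
sufficiently large `i`. -/
def Li {ι : Type 1} [Preorder ι] (A : ι → Hyp) : Set XX :=
  {x | ∀ ε > 0, ∀ᶠ i in atTop, ∃ y ∈ (A i).1, box x y < ε}

/-- The upper Kuratowski limit: the classes each `□`-ball about which meets `A i` for cofinally
many `i`. -/
def Ls {ι : Type 1} [Preorder ι] (A : ι → Hyp) : Set XX :=
  {x | ∀ ε > 0, ∃ᶠ i in atTop, ∃ y ∈ (A i).1, box x y < ε}

/-- Kuratowski-Painleve convergence of a net of closed sets.  (`Hyp` lives in `Type 1`, and nets
indexed by directed sets in `Type 1` are enough: convergence of a net depends only on the filter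
which the net generates on `Hyp`.) -/
def KPConv {ι : Type 1} [Preorder ι] (A : ι → Hyp) (L : Hyp) : Prop :=
  Ls A ⊆ L.1 ∧ L.1 ⊆ Li A

/-- In the topology `t` every Kuratowski-Painleve convergent net converges to its
Kuratowski-Painleve limit. -/
def ConvTop (t : TopologicalSpace Hyp) : Prop :=
  ∀ (ι : Type 1) [Preorder ι] [IsDirected ι (· ≤ ·)] [Nonempty ι] (A : ι → Hyp) (L : Hyp),
    KPConv A L → Tendsto A atTop (@nhds Hyp t L)

/-- The topologization `τK` of Kuratowski-Painleve convergence. -/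
@[instance_reducible] def tauK : TopologicalSpace Hyp where
  IsOpen O := ∀ (ι : Type 1) [Preorder ι] [IsDirected ι (· ≤ ·)] [Nonempty ι] (A : ι → Hyp)
    (L : Hyp), KPConv A L → L ∈ O → ∀ᶠ i in atTop, A i ∈ O
  isOpen_univ := by
    intro ι _ _ _ A L _ _
    exact Eventually.of_forall fun _ => mem_univ _
  isOpen_inter := by
    intro U V hU hV ι _ _ _ A L h hL
    exact (hU ι A L h hL.1).and (hV ι A L h hL.2)
  isOpen_sUnion := by
    intro S hS ι _ _ _ A L h hL
    obtain ⟨U, hU, hLU⟩ := hL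
    exact (hS U hU ι A L h hLU).mono fun i hi => ⟨U, hU, hi⟩

/-- `τK` is the finest topology for which every Kuratowski-Painleve convergent net converges. -/
theorem tauK_isLeast : IsLeast {t : TopologicalSpace Hyp | ConvTop t} tauK := by
  constructor
  · intro ι _ _ _ A L h
    let _ : TopologicalSpace Hyp := tauK
    rw [tendsto_nhds]
    intro O hO hL
    exact hO ι A L h hL
  · intro t ht O hO ι _ _ _ A L h hL
    exact (ht ι A L h) (@IsOpen.mem_nhds Hyp t L O hO hL)

lemma transferA {X Y : MMSpace} {δ : ℝ} (h : BoxLE X Y δ) {A : Set X.carrier}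
    (hA : MeasurableSet A) {r : ℝ} (hr : ∀ a ∈ A, ∀ b ∈ A, dist a b ≤ r) :
    ∃ B : Set Y.carrier, IsClosed B ∧ (∀ a ∈ B, ∀ b ∈ B, dist a b ≤ r + δ) ∧
      X.μ A ≤ Y.μ B + ENNReal.ofReal δ := by
  obtain ⟨h0, φ, ψ, I₀, hφ, hψ, hI, hm, hd⟩ := h
  have key : ∀ a ∈ ψ '' (φ ⁻¹' A ∩ I₀), ∀ b ∈ ψ '' (φ ⁻¹' A ∩ I₀), dist a b ≤ r + δ := by
    rintro _ ⟨s, hs, rfl⟩ _ ⟨t, ht, rfl⟩
    have h1 := hd s hs.2 t ht.2
    have h2 := hr _ hs.1 _ ht.1
    rw [abs_le] at h1
    linarith [h1.1]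
  refine ⟨closure (ψ '' (φ ⁻¹' A ∩ I₀)), isClosed_closure, ?_, ?_⟩
  · intro a ha b hb
    have hcl : IsClosed {p : Y.carrier × Y.carrier | dist p.1 p.2 ≤ r + δ} :=
      isClosed_le continuous_dist continuous_const
    have hsub : (ψ '' (φ ⁻¹' A ∩ I₀)) ×ˢ (ψ '' (φ ⁻¹' A ∩ I₀)) ⊆
        {p : Y.carrier × Y.carrier | dist p.1 p.2 ≤ r + δ} := fun p hp => key _ hp.1 _ hp.2
    have := hcl.closure_subset_iff.2 hsub
    rw [closure_prod_eq] at this
    exact this (show (a, b) ∈ _ from ⟨ha, hb⟩)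
  · have hc : leb I₀ᶜ ≤ ENNReal.ofReal δ := by
      rw [prob_compl_eq_one_sub hI]
      calc 1 - leb I₀ ≤ 1 - ENNReal.ofReal (1 - δ) := tsub_le_tsub_left hm _
        _ = ENNReal.ofReal 1 - ENNReal.ofReal (1 - δ) := by rw [ENNReal.ofReal_one]
        _ ≤ ENNReal.ofReal (1 - (1 - δ)) := by
            rcases le_total 0 (1 - δ) with h | h
            · rw [ENNReal.ofReal_sub _ h]
            · rw [ENNReal.ofReal_eq_zero.2 h, tsub_zero]
              exact ENNReal.ofReal_le_ofReal (by linarith)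
        _ = ENNReal.ofReal δ := by congr 1; ring
    calc X.μ A = leb (φ ⁻¹' A) := by rw [← hφ.2, Measure.map_apply hφ.1 hA]
      _ ≤ leb (ψ ⁻¹' (closure (ψ '' (φ ⁻¹' A ∩ I₀))) ∪ I₀ᶜ) := by
          apply measure_mono
          intro s hs
          by_cases hs' : s ∈ I₀
          · exact Or.inl (subset_closure ⟨s, ⟨hs, hs'⟩, rfl⟩)
          · exact Or.inr hs'
      _ ≤ leb (ψ ⁻¹' (closure (ψ '' (φ ⁻¹' A ∩ I₀)))) + leb I₀ᶜ := measure_union_le _ _
      _ ≤ Y.μ (closure (ψ '' (φ ⁻¹' A ∩ I₀))) + ENNReal.ofReal δ := by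
          rw [← Measure.map_apply hψ.1 isClosed_closure.measurableSet, hψ.2]
          gcongr

lemma transferD {X Y : MMSpace} {δ ε : ℝ} (h : BoxLE X Y δ)
    (hY : ∀ z ∈ Y.μ.support, ∀ z' ∈ Y.μ.support, dist z z' ≤ ε) {z z' : X.carrier} {r : ℝ}
    (hz : ENNReal.ofReal δ < X.μ (Metric.ball z r))
    (hz' : ENNReal.ofReal δ < X.μ (Metric.ball z' r)) :
    dist z z' ≤ 2 * r + ε + δ := by
  obtain ⟨h0, φ, ψ, I₀, hφ, hψ, hI, hm, hd⟩ := h
  have hs : MeasurableSet Y.μ.support := Measure.isClosed_support.measurableSet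
  have hc : leb I₀ᶜ ≤ ENNReal.ofReal δ := by
    rw [prob_compl_eq_one_sub hI]
    calc 1 - leb I₀ ≤ 1 - ENNReal.ofReal (1 - δ) := tsub_le_tsub_left hm _
      _ = ENNReal.ofReal 1 - ENNReal.ofReal (1 - δ) := by rw [ENNReal.ofReal_one]
      _ ≤ ENNReal.ofReal (1 - (1 - δ)) := by
          rcases le_total 0 (1 - δ) with h | h
          · rw [ENNReal.ofReal_sub _ h]
          · rw [ENNReal.ofReal_eq_zero.2 h, tsub_zero]
            exact ENNReal.ofReal_le_ofReal (by linarith)
      _ = ENNReal.ofReal δ := by congr 1; ring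
  have key : ∀ w : X.carrier, ENNReal.ofReal δ < X.μ (Metric.ball w r) →
      ∃ s ∈ I₀, φ s ∈ Metric.ball w r ∧ ψ s ∈ Y.μ.support := by
    intro w hw
    by_contra hcon
    push Not at hcon
    have hsub : φ ⁻¹' Metric.ball w r ⊆ I₀ᶜ ∪ ψ ⁻¹' (Y.μ.support)ᶜ := by
      intro s hs1
      by_cases hs2 : s ∈ I₀
      · exact Or.inr (hcon s hs2 hs1)
      · exact Or.inl hs2
    have h1 : X.μ (Metric.ball w r) ≤ ENNReal.ofReal δ := by
      calc X.μ (Metric.ball w r) = leb (φ ⁻¹' Metric.ball w r) := by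
            rw [← hφ.2, Measure.map_apply hφ.1 Metric.isOpen_ball.measurableSet]
        _ ≤ leb I₀ᶜ + leb (ψ ⁻¹' (Y.μ.support)ᶜ) := (measure_mono hsub).trans (measure_union_le _ _)
        _ = leb I₀ᶜ + 0 := by
            rw [← Measure.map_apply hψ.1 hs.compl, hψ.2, supp_compl]
        _ ≤ ENNReal.ofReal δ := by rw [add_zero]; exact hc
    exact absurd hw (not_lt.2 h1)
  obtain ⟨s, hs0, hs1, hs2⟩ := key z hz
  obtain ⟨t, ht0, ht1, ht2⟩ := key z' hz'
  have h1 := hd s hs0 t ht0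
  have h2 := hY _ hs2 _ ht2
  rw [abs_le] at h1
  have h3 := dist_triangle4 z (φ s) (φ t) z'
  rw [Metric.mem_ball] at hs1 ht1
  rw [dist_comm z (φ s)] at h3
  linarith [h1.2]


/-- Diameter of the support at most `ε`. -/
def DiamLE (ε : ℝ) (X : MMSpace) : Prop :=
  ∀ z ∈ X.μ.support, ∀ z' ∈ X.μ.support, dist z z' ≤ ε

/-- Sets of diameter `< ε` have mass at most `1/m`. -/
def Spread (ε : ℝ) (m : ℕ) (X : MMSpace) : Prop :=
  ∀ A : Set X.carrier, IsClosed A → ∀ r < ε, (∀ a ∈ A, ∀ b ∈ A, dist a b ≤ r) →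
    X.μ A ≤ ENNReal.ofReal (1 / m)

/-- The closed sets used in the proof. -/
def CC (ε : ℝ) (m : ℕ) : Set XX :=
  {x | ∃ Y : MMSpace, (Quotient.mk mmSetoid Y : XX) = x ∧ DiamLE ε Y ∧ Spread ε m Y}

/-- The classes of one-point spaces. -/
def DD : Set XX := {x | ∃ Y : MMSpace, (Quotient.mk mmSetoid Y : XX) = x ∧ DiamLE 0 Y}

lemma ball_pos {X : MMSpace} {z : X.carrier} (hz : z ∈ X.μ.support) {r : ℝ} (hr : 0 < r) :
    0 < X.μ (Metric.ball z r) :=
  (Measure.mem_support_iff_forall z).1 hz _ (Metric.ball_mem_nhds z hr)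

lemma exists_delta {a b : ℝ≥0∞} (ha : 0 < a) (hb : 0 < b) {r : ℝ} (hr : 0 < r) :
    ∃ δ > 0, δ ≤ r ∧ ∀ δ' ≤ δ, ENNReal.ofReal δ' < a ∧ ENNReal.ofReal δ' < b := by
  obtain ⟨c, hc0, hc⟩ := exists_between (lt_min ha hb)
  have hct : c ≠ ⊤ := (lt_of_lt_of_le hc le_top).ne
  have hc' : 0 < c.toReal := ENNReal.toReal_pos hc0.ne' hct
  refine ⟨min c.toReal r, lt_min hc' hr, min_le_right _ _, fun δ' hδ' => ?_⟩
  have h1 : ENNReal.ofReal δ' ≤ c := by
    calc ENNReal.ofReal δ' ≤ ENNReal.ofReal c.toReal :=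
          ENNReal.ofReal_le_ofReal (hδ'.trans (min_le_left _ _))
      _ = c := ENNReal.ofReal_toReal hct
  exact ⟨h1.trans_lt (hc.trans_le (min_le_left _ _)), h1.trans_lt (hc.trans_le (min_le_right _ _))⟩

/-- `dist z z'` is controlled by nearby spaces of small diameter. -/
lemma dist_le_of_close {X : MMSpace} {z z' : X.carrier} (hz : z ∈ X.μ.support)
    (hz' : z' ∈ X.μ.support) {η : ℝ} (hη : 0 < η) :
    ∃ δ > 0, ∀ (ε : ℝ) (Y : MMSpace), DiamLE ε Y → boxMM X Y < δ → dist z z' ≤ ε + η := by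
  obtain ⟨δ, hδ, hδr, h⟩ := exists_delta (ball_pos hz (show 0 < η / 4 by positivity))
    (ball_pos hz' (show 0 < η / 4 by positivity)) (show 0 < η / 4 by positivity)
  refine ⟨δ, hδ, fun ε Y hY hb => ?_⟩
  obtain ⟨δ', hlt, hb'⟩ := boxMM_lt hb
  have := transferD hb' hY (h δ' hlt.le).1 (h δ' hlt.le).2
  linarith

lemma closed_DD : IsBoxClosed DD := by
  intro x
  obtain ⟨X, rfl⟩ := Quotient.exists_rep x
  intro h
  refine ⟨X, rfl, fun z hz z' hz' => ?_⟩
  refine le_of_forall_pos_le_add fun η hη => ?_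
  obtain ⟨δ, hδ, hX⟩ := dist_le_of_close hz hz' hη
  obtain ⟨_, ⟨Y, rfl, hY⟩, hb⟩ := h δ hδ
  exact hX 0 Y hY hb

lemma closed_CC (ε : ℝ) (m : ℕ) : IsBoxClosed (CC ε m) := by
  intro x
  obtain ⟨X, rfl⟩ := Quotient.exists_rep x
  intro h
  refine ⟨X, rfl, fun z hz z' hz' => ?_, fun A hA r hr hAr => ?_⟩
  · refine le_of_forall_pos_le_add fun η hη => ?_
    obtain ⟨δ, hδ, hX⟩ := dist_le_of_close hz hz' hη
    obtain ⟨_, ⟨Y, rfl, hY, -⟩, hb⟩ := h δ hδ
    exact hX ε Y hY hb
  · refine ENNReal.le_of_forall_pos_le_add fun η hη _ => ?_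
    have hpos : 0 < min (η : ℝ) (ε - r) := lt_min (by exact_mod_cast hη) (by linarith)
    obtain ⟨_, ⟨Y, rfl, -, hY⟩, hb⟩ := h _ hpos
    obtain ⟨δ', hlt, hb'⟩ := boxMM_lt hb
    obtain ⟨B, hB, hBr, hAB⟩ := transferA hb' hA.measurableSet hAr
    have h1 := hY B hB (r + δ') (by linarith [min_le_right (η : ℝ) (ε - r)]) hBr
    refine hAB.trans (add_le_add h1 ?_)
    calc ENNReal.ofReal δ' ≤ ENNReal.ofReal (η : ℝ) :=
          ENNReal.ofReal_le_ofReal (hlt.le.trans (min_le_left _ _))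
      _ = η := ENNReal.ofReal_coe_nnreal

lemma no_cluster {ε : ℝ} (hε : 0 < ε) (x : XX) :
    ∃ δ > 0, ∃ M : ℕ, ∀ m ≥ M, ∀ y ∈ CC ε m, ¬ box x y < δ := by
  obtain ⟨X, rfl⟩ := Quotient.exists_rep x
  have hne := X.nonempty
  let f : ℕ → Set X.carrier := fun i =>
    Metric.closedBall (TopologicalSpace.denseSeq X.carrier i) (ε / 8)
  have hf : ⋃ i, f i = univ := by
    rw [eq_univ_iff_forall]
    intro a
    obtain ⟨i, hi⟩ := (TopologicalSpace.denseRange_denseSeq X.carrier).exists_dist_lt a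
      (show 0 < ε / 8 by positivity)
    exact mem_iUnion.2 ⟨i, hi.le⟩
  have ht := tendsto_measure_iUnion_accumulate (μ := X.μ) (f := f)
  rw [hf, measure_univ] at ht
  have hlt : ENNReal.ofReal (1 / 2) < 1 := by
    rw [ENNReal.ofReal_lt_one]; norm_num
  obtain ⟨N, hN⟩ := (ht.eventually (lt_mem_nhds hlt)).exists
  have hN0 : (0 : ℝ) < N + 1 := by positivity
  refine ⟨min (ε / 4) (1 / (4 * (N + 1))), by positivity, 4 * (N + 1), ?_⟩
  rintro m hm _ ⟨Y, rfl, -, hY⟩ hb
  obtain ⟨δ', hlt', hb'⟩ := boxMM_lt hb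
  have hbd : ∀ i, X.μ (f i) ≤ ENNReal.ofReal (1 / (2 * (N + 1))) := by
    intro i
    obtain ⟨B, hB, hBr, hAB⟩ := transferA hb' (A := f i) Metric.isClosed_closedBall.measurableSet
      (r := ε / 4) (by
        intro a ha b hb
        have := dist_triangle_right a b (TopologicalSpace.denseSeq X.carrier i)
        rw [Metric.mem_closedBall] at ha hb
        linarith)
    have h1 := hY B hB (ε / 4 + δ') (by linarith [min_le_left (ε / 4) (1 / (4 * ((N : ℝ) + 1)))]) hBr
    have hm' : (1 : ℝ) / m ≤ 1 / (4 * (N + 1)) := by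
      apply one_div_le_one_div_of_le (by positivity)
      exact_mod_cast hm
    have hδ0 : 0 ≤ δ' := hb'.1
    calc X.μ (f i) ≤ Y.μ B + ENNReal.ofReal δ' := hAB
      _ ≤ ENNReal.ofReal (1 / m) + ENNReal.ofReal δ' := by gcongr
      _ = ENNReal.ofReal (1 / m + δ') := (ENNReal.ofReal_add (by positivity) hδ0).symm
      _ ≤ ENNReal.ofReal (1 / (2 * (N + 1))) := by
          apply ENNReal.ofReal_le_ofReal
          have h2 : δ' ≤ 1 / (4 * (N + 1)) := hlt'.le.trans (min_le_right _ _)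
          calc (1 : ℝ) / m + δ' ≤ 1 / (4 * (N + 1)) + 1 / (4 * (N + 1)) := add_le_add hm' h2
            _ = 1 / (2 * (N + 1)) := by field_simp; norm_num
  have hsum : X.μ (accumulate f N) ≤ ENNReal.ofReal (1 / 2) := by
    have hacc : accumulate f N = ⋃ i ∈ Finset.range (N + 1), f i := by
      ext a
      simp [mem_accumulate]
    rw [hacc]
    calc X.μ (⋃ i ∈ Finset.range (N + 1), f i) ≤ ∑ i ∈ Finset.range (N + 1), X.μ (f i) :=
          measure_biUnion_finset_le _ _
      _ ≤ ∑ _i ∈ Finset.range (N + 1), ENNReal.ofReal (1 / (2 * (N + 1))) :=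
          Finset.sum_le_sum fun i _ => hbd i
      _ = ENNReal.ofReal (1 / 2) := by
          rw [Finset.sum_const, Finset.card_range, nsmul_eq_mul,
            ← ENNReal.ofReal_natCast, ← ENNReal.ofReal_mul (by positivity)]
          congr 1
          push_cast
          field_simp
  exact absurd hN (not_lt.2 hsum)

/-- The underlying set of the spaces `Y_n`. -/
def Pt (n : ℕ) : Type := Fin (n + 1)

/-- The number of a point of `Y_n`. -/
def Pt.idx {n : ℕ} (i : Pt n) : ℕ := Fin.val (n := n + 1) i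

instance (n : ℕ) : DecidableEq (Pt n) := inferInstanceAs (DecidableEq (Fin (n + 1)))
instance (n : ℕ) : Finite (Pt n) := inferInstanceAs (Finite (Fin (n + 1)))

/-- `n+1` points at mutual distance `ε`. -/
@[instance_reducible] def ptMetric (n : ℕ) (ε : ℝ) (hε : 0 < ε) : MetricSpace (Pt n) where
  dist i j := if i = j then 0 else ε
  dist_self i := by simp
  dist_comm i j := by simp only [eq_comm]
  dist_triangle i j k := by
    split_ifs <;> simp_all <;> linarith
  eq_of_dist_eq_zero := by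
    intro i j h
    by_contra hne
    simp only [if_neg hne] at h
    exact hε.ne' h

/-- The map `s ↦ ⌊(n+1)s⌋`. -/
def ptParam (n : ℕ) (s : I) : Pt n :=
  (⟨⌊((n : ℝ) + 1) * s.1⌋₊, by
    rw [Nat.floor_lt (mul_nonneg (by positivity) s.2.1)]
    push_cast
    have := s.2.2
    nlinarith [s.2.1, (Nat.cast_nonneg n : (0 : ℝ) ≤ n)]⟩ : Fin (n + 1))

lemma ptParam_preimage (n : ℕ) (i : Pt n) : MeasurableSet (ptParam n ⁻¹' {i}) ∧
    leb (ptParam n ⁻¹' {i}) ≤ ENNReal.ofReal (1 / ((n : ℝ) + 1)) := by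
  have h1 : ptParam n ⁻¹' {i} = Subtype.val ⁻¹'
      (Set.Ico (i.idx / ((n : ℝ) + 1)) (((i.idx : ℝ) + 1) / ((n : ℝ) + 1))) := by
    ext s
    have hn : (0 : ℝ) < n + 1 := by positivity
    rw [mem_preimage, mem_singleton_iff, mem_preimage, mem_Ico, div_le_iff₀ hn, lt_div_iff₀ hn]
    constructor
    · intro h
      have h2 : ⌊((n : ℝ) + 1) * s.1⌋₊ = i.idx := congrArg Fin.val h
      rw [Nat.floor_eq_iff (mul_nonneg hn.le s.2.1)] at h2
      constructor <;> linarith [h2.1, h2.2]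
    · intro h
      apply Fin.ext
      show ⌊((n : ℝ) + 1) * s.1⌋₊ = i.idx
      rw [Nat.floor_eq_iff (mul_nonneg hn.le s.2.1)]
      constructor <;> linarith [h.1, h.2]
  rw [h1]
  refine ⟨measurable_subtype_coe measurableSet_Ico, ?_⟩
  rw [leb_apply]
  refine (measure_mono (image_preimage_subset _ _)).trans ?_
  rw [Real.volume_Ico]
  apply ENNReal.ofReal_le_ofReal
  apply le_of_eq
  ring

/-- The mm-space `Y_n`: `n+1` points of mass `1/(n+1)` at mutual distance `ε`. -/
def YY (n : ℕ) (ε : ℝ) (hε : 0 < ε) : MMSpace :=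
  letI := ptMetric n ε hε
  letI : MeasurableSpace (Pt n) := borel _
  haveI : BorelSpace (Pt n) := ⟨rfl⟩
  have hm : Measurable (ptParam n) := measurable_to_countable' fun i => (ptParam_preimage n i).1
  haveI : CompleteSpace (Pt n) := by infer_instance
  haveI : TopologicalSpace.SeparableSpace (Pt n) := by infer_instance
  haveI : IsProbabilityMeasure (Measure.map (ptParam n) leb) :=
    Measure.isProbabilityMeasure_map hm.aemeasurable
  { carrier := Pt n
    μ := Measure.map (ptParam n) leb }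


lemma YY_diam (n : ℕ) (ε : ℝ) (hε : 0 < ε) : DiamLE ε (YY n ε hε) := by
  intro z _ z' _
  change (if (show Pt n from z) = (show Pt n from z') then (0 : ℝ) else ε) ≤ ε
  split_ifs
  · exact hε.le
  · exact le_rfl

lemma YY_dist_le (n : ℕ) (ε : ℝ) (hε : 0 < ε) (z z' : (YY n ε hε).carrier) :
    0 ≤ dist z z' ∧ dist z z' ≤ ε := by
  refine ⟨dist_nonneg, ?_⟩
  change (if (show Pt n from z) = (show Pt n from z') then (0 : ℝ) else ε) ≤ ε
  split_ifs
  · exact hε.le
  · exact le_rfl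

lemma YY_dist_ne (n : ℕ) (ε : ℝ) (hε : 0 < ε) (z z' : (YY n ε hε).carrier) (h : z ≠ z') :
    dist z z' = ε := by
  change (if (show Pt n from z) = (show Pt n from z') then (0 : ℝ) else ε) = ε
  exact if_neg h

lemma YY_param (n : ℕ) (ε : ℝ) (hε : 0 < ε) : IsParameter (YY n ε hε) (ptParam n) := by
  let _ := ptMetric n ε hε
  let _ : MeasurableSpace (Pt n) := borel _
  have _ : BorelSpace (Pt n) := ⟨rfl⟩
  have hm : Measurable (ptParam n) := measurable_to_countable' fun i => (ptParam_preimage n i).1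
  exact ⟨hm, rfl⟩

lemma YY_spread (n : ℕ) (ε : ℝ) (hε : 0 < ε) : Spread ε (n + 1) (YY n ε hε) := by
  intro A hA r hr hAr
  have hsub : A.Subsingleton := by
    intro a ha b hb
    by_contra hne
    have h1 := hAr a ha b hb
    rw [YY_dist_ne n ε hε a b hne] at h1
    linarith
  rcases hsub.eq_empty_or_singleton with h | ⟨i, h⟩
  · rw [h]; simp
  · have hp := YY_param n ε hε
    rw [← hp.2, Measure.map_apply hp.1 hA.measurableSet, h]
    have := (ptParam_preimage n i).2
    push_cast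
    exact this

lemma YY_mem (n : ℕ) (ε : ℝ) (hε : 0 < ε) :
    (Quotient.mk mmSetoid (YY n ε hε) : XX) ∈ CC ε (n + 1) :=
  ⟨_, rfl, YY_diam n ε hε, YY_spread n ε hε⟩

lemma box_YY_le (n : ℕ) (ε : ℝ) (hε : 0 < ε) (x : XX) (hx : x ∈ DD) :
    box x (Quotient.mk mmSetoid (YY n ε hε)) ≤ ε := by
  obtain ⟨X, rfl, hX⟩ := hx
  obtain ⟨φ, hφ⟩ := exists_parameter X
  have hs : MeasurableSet X.μ.support := Measure.isClosed_support.measurableSet
  have h1 : leb (φ ⁻¹' X.μ.support)ᶜ = 0 := by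
    rw [← preimage_compl, ← Measure.map_apply hφ.1 hs.compl, hφ.2, supp_compl]
  refine boxMM_le ⟨hε.le, φ, ptParam n, φ ⁻¹' X.μ.support, hφ, YY_param n ε hε, hφ.1 hs, ?_, ?_⟩
  · rw [(prob_compl_eq_zero_iff (hφ.1 hs)).1 h1, ← ENNReal.ofReal_one]
    exact ENNReal.ofReal_le_ofReal (by linarith)
  · intro s hs t ht
    have h2 : dist (φ s) (φ t) = 0 := le_antisymm (hX _ hs _ ht) dist_nonneg
    have h3 := YY_dist_le n ε hε (ptParam n s) (ptParam n t)
    rw [h2, zero_sub, abs_neg, abs_of_nonneg h3.1]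
    exact h3.2

/-- The one-point space. -/
def onePt : MMSpace :=
  { carrier := PUnit
    μ := Measure.dirac PUnit.unit }

lemma onePt_mem : (Quotient.mk mmSetoid onePt : XX) ∈ DD := by
  refine ⟨onePt, rfl, ?_⟩
  rintro ⟨⟩ _ ⟨⟩ _
  exact le_of_eq (dist_self _)

/-- `DD` and `∅` as points of the hyperspace. -/
def hDD : Hyp := ⟨DD, closed_DD⟩
def hEmpty : Hyp := ⟨∅, fun _ h => by
  obtain ⟨_, h, _⟩ := h 1 one_pos
  exact h⟩
def hCC (ε : ℝ) (m : ℕ) : Hyp := ⟨CC ε m, closed_CC ε m⟩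

lemma conv_empty {ε : ℝ} (hε : 0 < ε) :
    KPConv (fun m : ULift.{1} ℕ => hCC ε m.down) hEmpty := by
  constructor
  · intro x hx
    exfalso
    obtain ⟨δ, hδ, M, h⟩ := no_cluster hε x
    have h1 := hx δ hδ
    rw [frequently_atTop] at h1
    obtain ⟨b, hb, y, hy, hxy⟩ := h1 ⟨M⟩
    exact h b.down hb y hy hxy
  · intro x hx
    exact hx.elim

lemma conv_DD (k : ℕ → ℕ) :
    KPConv (fun n : ULift.{1} ℕ => hCC (1 / ((n.down : ℝ) + 1)) (k n.down + 1)) hDD := by
  constructor
  · intro x hx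
    obtain ⟨X, rfl⟩ := Quotient.exists_rep x
    refine ⟨X, rfl, fun z hz z' hz' => ?_⟩
    refine le_of_forall_pos_le_add fun η hη => ?_
    obtain ⟨δ, hδ, hX⟩ := dist_le_of_close hz hz' (show 0 < η / 2 by positivity)
    have h1 := hx δ hδ
    rw [frequently_atTop] at h1
    obtain ⟨N, hN⟩ := exists_nat_one_div_lt (show 0 < η / 2 by positivity)
    obtain ⟨b, hb, _, ⟨Y, rfl, hY, -⟩, hxy⟩ := h1 ⟨N⟩
    have h2 := hX _ Y hY hxy
    have h3 : (1 : ℝ) / ((b.down : ℝ) + 1) ≤ 1 / ((N : ℝ) + 1) := by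
      apply one_div_le_one_div_of_le (by positivity)
      have : N ≤ b.down := hb
      have : (N : ℝ) ≤ b.down := by exact_mod_cast this
      linarith
    linarith
  · intro x hx ε hε
    rw [eventually_atTop]
    obtain ⟨N, hN⟩ := exists_nat_one_div_lt hε
    refine ⟨⟨N⟩, fun b hb => ?_⟩
    have hpos : (0 : ℝ) < 1 / ((b.down : ℝ) + 1) := by positivity
    refine ⟨_, YY_mem (k b.down) _ hpos, (box_YY_le _ _ hpos x hx).trans_lt (lt_of_le_of_lt ?_ hN)⟩
    apply one_div_le_one_div_of_le (by positivity)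
    have : N ≤ b.down := hb
    have : (N : ℝ) ≤ b.down := by exact_mod_cast this
    linarith

/-- Any two `τK`-open sets containing `∅` and `DD` intersect. -/
lemma not_separated (U V : Set Hyp) (hU : IsOpen[tauK] U) (hV : IsOpen[tauK] V)
    (h1 : hEmpty ∈ U) (h2 : hDD ∈ V) : (U ∩ V).Nonempty := by
  have key : ∀ n : ℕ, ∃ m : ℕ, hCC (1 / ((n : ℝ) + 1)) (m + 1) ∈ U := by
    intro n
    have := hU _ _ _ (conv_empty (show (0 : ℝ) < 1 / ((n : ℝ) + 1) by positivity)) h1
    rw [eventually_atTop] at this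
    obtain ⟨a, ha⟩ := this
    exact ⟨a.down, ha ⟨a.down + 1⟩ (Nat.le_succ _)⟩
  choose k hk using key
  have := hV _ _ _ (conv_DD k) h2
  obtain ⟨n, hn⟩ := this.exists
  exact ⟨_, hk n.down, hn⟩

/-- **Q1 and Q2.** The finest topology on `F(𝒳, □)` for which all Kuratowski-Painleve
convergent nets converge is neither Hausdorff nor metrizable. -/
theorem result :
    IsLeast {t : TopologicalSpace Hyp | ConvTop t} tauK ∧
    ¬ @T2Space Hyp tauK ∧ ¬ @TopologicalSpace.MetrizableSpace Hyp tauK := by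
  have hT2 : ¬ @T2Space Hyp tauK := by
    intro h
    let _ : TopologicalSpace Hyp := tauK
    have hne : hEmpty ≠ hDD := by
      intro he
      have : (Quotient.mk mmSetoid onePt : XX) ∈ hEmpty.1 := by rw [he]; exact onePt_mem
      exact this
    obtain ⟨U, V, hU, hV, h1, h2, h3⟩ := t2_separation hne
    obtain ⟨z, hz⟩ := not_separated U V hU hV h1 h2
    exact disjoint_left.1 h3 hz.1 hz.2
  refine ⟨tauK_isLeast, hT2, fun h => hT2 ?_⟩
  let _ : TopologicalSpace Hyp := tauK
  infer_instance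

end Pool.Agent.Results.MP_3b4475_gt.TauKNotHausdorff
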